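import Pool.Agent.Helper18.BV.St
import Pool.Agent.Helper96.CPAP.SieveK

/-!
# Weighted Brun-Hooley sieve with error terms on average (project BV)

This adapts `Helper96.CPAP.brun_hooleyK` and `Helper96.CPAP.sieveK` to weighted sums, with error
terms `r (∏ q ∈ I, q)` controlled only on average over the products.
-/

set_option autoImplicit false
set_option linter.unusedSectionVars false

open Finset Real

namespace Pool.Agent.Helper28.BV

open Pool.Agent.Helper18.BV Pool.Agent.Helper44 Pool.Agent.Helper96.CPAP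

variable {α : Type*}

/-- A finite set of primes is determined by its product. -/
theorem eq_of_prod_primes_eq {I J : Finset ℕ} (hI : ∀ q ∈ I, q.Prime) (hJ : ∀ q ∈ J, q.Prime)
    (h : ∏ q ∈ I, q = ∏ q ∈ J, q) : I = J := by
  have key : ∀ K : Finset ℕ, (∀ q ∈ K, q.Prime) → ∀ p, p ∈ K ↔ p.Prime ∧ p ∣ ∏ q ∈ K, q := by
    intro K hK p
    constructor
    · intro hp
      exact ⟨hK p hp, Finset.dvd_prod_of_mem _ hp⟩
    · rintro ⟨hp, hd⟩
      obtain ⟨q, hq, hpq⟩ := (hp.prime.dvd_finsetProd_iff _).mp hd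
      rwa [(Nat.prime_dvd_prime_iff_eq hp (hK q hq)).mp hpq]
  ext p
  rw [key I hI, key J hJ, h]

theorem expand_blocksW {t : ℕ} (Ω : Finset α) (W : α → ℝ) (occ : ℕ → α → Prop)
    (B : Fin t → Finset ℕ) (hB : ∀ i j, i ≠ j → Disjoint (B i) (B j))
    (hBp : ∀ j, ∀ q ∈ B j, q.Prime) (x : ℕ → ℝ) (X : ℝ) (r : ℕ → ℝ) (hr : ∀ d, 0 ≤ r d) (Z : ℕ)
    (hcnt : ∀ I : Finset ℕ, I ⊆ Finset.univ.biUnion B → ∏ q ∈ I, q ≤ Z →
      |∑ ω ∈ Ω, W ω * ∏ i ∈ I, ind occ ω i - X * ∏ i ∈ I, x i| ≤ r (∏ q ∈ I, q))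
    (c : Fin t → Finset ℕ → ℝ) (S : Fin t → Finset (Finset ℕ)) (hS : ∀ j, ∀ I ∈ S j, I ⊆ B j)
    (hc : ∀ j I, |c j I| ≤ 1)
    (hZ : ∀ f ∈ Fintype.piFinset S, ∏ q ∈ Finset.univ.biUnion f, q ≤ Z) :
    |∑ ω ∈ Ω, W ω * ∏ j, ∑ I ∈ S j, c j I * ∏ i ∈ I, ind occ ω i -
      X * ∏ j, ∑ I ∈ S j, c j I * ∏ i ∈ I, x i| ≤ ∑ d ∈ Icc 1 Z, r d := by
  classical
  have hprod : ∀ (y : ℕ → ℝ), ∏ j, ∑ I ∈ S j, c j I * ∏ i ∈ I, y i =
      ∑ f ∈ Fintype.piFinset S, (∏ j, c j (f j)) * ∏ i ∈ Finset.univ.biUnion f, y i := by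
    intro y
    rw [Finset.prod_univ_sum]
    apply Finset.sum_congr rfl
    intro f hf
    rw [Fintype.mem_piFinset] at hf
    rw [Finset.prod_mul_distrib, Finset.prod_biUnion]
    intro i _ j _ hij
    exact Finset.disjoint_of_subset_left (hS i _ (hf i))
      (Finset.disjoint_of_subset_right (hS j _ (hf j)) (hB i j hij))
  simp_rw [hprod, Finset.mul_sum]
  rw [Finset.sum_comm, ← Finset.sum_sub_distrib]
  have hsub : ∀ f ∈ Fintype.piFinset S, Finset.univ.biUnion f ⊆ Finset.univ.biUnion B := by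
    intro f hf
    rw [Fintype.mem_piFinset] at hf
    intro i hi
    rw [Finset.mem_biUnion] at hi ⊢
    obtain ⟨j, hj, hij⟩ := hi
    exact ⟨j, hj, hS j _ (hf j) hij⟩
  have hpr : ∀ f ∈ Fintype.piFinset S, ∀ q ∈ Finset.univ.biUnion f, q.Prime := by
    intro f hf q hq
    have := hsub f hf hq
    rw [Finset.mem_biUnion] at this
    obtain ⟨j, _, hj⟩ := this
    exact hBp j q hj
  have hterm : ∀ f ∈ Fintype.piFinset S,
      |∑ ω ∈ Ω, W ω * ((∏ j, c j (f j)) * ∏ i ∈ Finset.univ.biUnion f, ind occ ω i) -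
        X * ((∏ j, c j (f j)) * ∏ i ∈ Finset.univ.biUnion f, x i)| ≤
        r (∏ q ∈ Finset.univ.biUnion f, q) := by
    intro f hf
    have h1 := hcnt _ (hsub f hf) (hZ f hf)
    have h2 : ∑ ω ∈ Ω, W ω * ((∏ j, c j (f j)) * ∏ i ∈ Finset.univ.biUnion f, ind occ ω i) =
        (∏ j, c j (f j)) * ∑ ω ∈ Ω, W ω * ∏ i ∈ Finset.univ.biUnion f, ind occ ω i := by
      rw [Finset.mul_sum]
      apply Finset.sum_congr rfl
      intro ω _
      ring
    rw [h2]
    have h3 : (∏ j, c j (f j)) * ∑ ω ∈ Ω, W ω * ∏ i ∈ Finset.univ.biUnion f, ind occ ω i -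
        X * ((∏ j, c j (f j)) * ∏ i ∈ Finset.univ.biUnion f, x i) =
        (∏ j, c j (f j)) * (∑ ω ∈ Ω, W ω * ∏ i ∈ Finset.univ.biUnion f, ind occ ω i -
            X * ∏ i ∈ Finset.univ.biUnion f, x i) := by ring
    rw [h3, abs_mul]
    have h4 : |∏ j, c j (f j)| ≤ 1 := by
      rw [Finset.abs_prod]
      exact Finset.prod_le_one (fun _ _ => abs_nonneg _) (fun j _ => hc j _)
    calc _ ≤ 1 * r (∏ q ∈ Finset.univ.biUnion f, q) :=
          mul_le_mul h4 h1 (abs_nonneg _) (by norm_num)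
      _ = _ := one_mul _
  have hinj : Set.InjOn (fun f : Fin t → Finset ℕ => ∏ q ∈ Finset.univ.biUnion f, q)
      (Fintype.piFinset S : Finset (Fin t → Finset ℕ)) := by
    intro f hf g hg hfg
    have hf' : f ∈ Fintype.piFinset S := hf
    have hg' : g ∈ Fintype.piFinset S := hg
    have hu : Finset.univ.biUnion f = Finset.univ.biUnion g :=
      eq_of_prod_primes_eq (hpr f hf') (hpr g hg') hfg
    have hmem : ∀ h ∈ Fintype.piFinset S, ∀ j, h j = (Finset.univ.biUnion h) ∩ B j := by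
      intro h hh j
      rw [Fintype.mem_piFinset] at hh
      ext q
      rw [Finset.mem_inter, Finset.mem_biUnion]
      constructor
      · intro hq
        exact ⟨⟨j, Finset.mem_univ _, hq⟩, hS j _ (hh j) hq⟩
      · rintro ⟨⟨i, _, hi⟩, hqj⟩
        by_cases hij : i = j
        · subst hij; exact hi
        · exact absurd hqj (Finset.disjoint_left.mp (hB i j hij) (hS i _ (hh i) hi))
    funext j
    rw [hmem f hf' j, hmem g hg' j, hu]
  calc |∑ f ∈ Fintype.piFinset S,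
      (∑ ω ∈ Ω, W ω * ((∏ j, c j (f j)) * ∏ i ∈ Finset.univ.biUnion f, ind occ ω i) -
        X * ((∏ j, c j (f j)) * ∏ i ∈ Finset.univ.biUnion f, x i))|
      ≤ ∑ f ∈ Fintype.piFinset S, r (∏ q ∈ Finset.univ.biUnion f, q) :=
        (Finset.abs_sum_le_sum_abs _ _).trans (Finset.sum_le_sum hterm)
    _ = ∑ d ∈ (Fintype.piFinset S).image
          (fun f : Fin t → Finset ℕ => ∏ q ∈ Finset.univ.biUnion f, q), r d :=
        (Finset.sum_image hinj).symm
    _ ≤ ∑ d ∈ Icc 1 Z, r d := by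
        apply Finset.sum_le_sum_of_subset_of_nonneg
        · intro d hd
          rw [Finset.mem_image] at hd
          obtain ⟨f, hf, rfl⟩ := hd
          rw [Finset.mem_Icc]
          exact ⟨Finset.prod_pos fun q hq => (hpr f hf q hq).pos, hZ f hf⟩
        · intro d _ _
          exact hr d

/-- The weighted Brun-Hooley sieve, raw form. -/
theorem brun_hooley_rawW {t : ℕ} (Ω : Finset α) (W : α → ℝ) (hW : ∀ ω ∈ Ω, 0 ≤ W ω)
    (occ : ℕ → α → Prop)
    (B : Fin t → Finset ℕ) (hB : ∀ i j, i ≠ j → Disjoint (B i) (B j))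
    (hBp : ∀ j, ∀ q ∈ B j, q.Prime) (x : ℕ → ℝ) (X : ℝ) (r : ℕ → ℝ) (hr : ∀ d, 0 ≤ r d) (Z : ℕ)
    (hcnt : ∀ I : Finset ℕ, I ⊆ Finset.univ.biUnion B → ∏ q ∈ I, q ≤ Z →
      |∑ ω ∈ Ω, W ω * ∏ i ∈ I, ind occ ω i - X * ∏ i ∈ I, x i| ≤ r (∏ q ∈ I, q))
    (m : Fin t → ℕ) (hm : ∀ j, Even (m j))
    (hZ : ∀ f : Fin t → Finset ℕ, (∀ j, f j ⊆ B j ∧ (f j).card ≤ m j + 1) →
      ∏ q ∈ Finset.univ.biUnion f, q ≤ Z) :
    X * (∏ j, tr (B j) (m j) x -
        ∑ l, ∏ j, (if j = l then es (B l) (m l + 1) x else tr (B j) (m j) x)) -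
      (t + 1) * ∑ d ∈ Icc 1 Z, r d ≤
      ∑ ω ∈ Ω, W ω * ∏ j, ∏ i ∈ B j, (1 - ind occ ω i) := by
  classical
  have hPT : ∀ ω, ∀ j, ∏ i ∈ B j, (1 - ind occ ω i) ≤ tr (B j) (m j) (ind occ ω) := fun ω j =>
    prod_le_tr_even (B j) (ind occ ω) (fun i _ => ind_mem occ ω i) (m j) (hm j)
  have hP0 : ∀ ω, ∀ j, 0 ≤ ∏ i ∈ B j, (1 - ind occ ω i) := fun ω j =>
    Finset.prod_nonneg fun i _ => by linarith [(ind_mem occ ω i).2]
  have hTP : ∀ ω, ∀ j, tr (B j) (m j) (ind occ ω) - ∏ i ∈ B j, (1 - ind occ ω i) ≤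
      es (B j) (m j + 1) (ind occ ω) := fun ω j => by
    have := tr_even_le (B j) (ind occ ω) (fun i _ => ind_mem occ ω i) (m j) (hm j)
    linarith
  set R : ℝ := ∑ d ∈ Icc 1 Z, r d with hR
  -- main expansion
  have hmain : |∑ ω ∈ Ω, W ω * ∏ j, tr (B j) (m j) (ind occ ω) - X * ∏ j, tr (B j) (m j) x| ≤
      R := by
    simp_rw [tr_eq_sum_filter]
    refine expand_blocksW Ω W occ B hB hBp x X r hr Z hcnt (fun _ I => (-1 : ℝ) ^ I.card)
      (fun j => (B j).powerset.filter (fun I => I.card ≤ m j)) ?_ ?_ ?_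
    · intro j I hI
      exact Finset.mem_powerset.mp (Finset.mem_filter.mp hI).1
    · intro j I
      rw [abs_pow]; simp
    · intro f hf
      rw [Fintype.mem_piFinset] at hf
      apply hZ
      intro j
      have h1 := Finset.mem_filter.mp (hf j)
      exact ⟨Finset.mem_powerset.mp h1.1, by have := h1.2; omega⟩
  have herr : ∀ l : Fin t,
      |∑ ω ∈ Ω, W ω * ∏ j, (if j = l then es (B l) (m l + 1) (ind occ ω) else
          tr (B j) (m j) (ind occ ω)) -
        X * ∏ j, (if j = l then es (B l) (m l + 1) x else tr (B j) (m j) x)| ≤ R := by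
    intro l
    have hform : ∀ y : ℕ → ℝ, ∀ j : Fin t,
        (if j = l then es (B l) (m l + 1) y else tr (B j) (m j) y) =
        ∑ I ∈ (B j).powerset.filter (fun I => if j = l then I.card = m j + 1 else I.card ≤ m j),
          (if j = l then 1 else (-1 : ℝ) ^ I.card) * ∏ i ∈ I, y i := by
      intro y j
      by_cases hj : j = l
      · subst hj
        simp only [if_true]
        rw [es_eq_sum_filter]
      · simp only [hj, if_false]
        rw [tr_eq_sum_filter]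
    simp_rw [hform]
    refine expand_blocksW Ω W occ B hB hBp x X r hr Z hcnt
      (fun j I => if j = l then 1 else (-1 : ℝ) ^ I.card)
      (fun j => (B j).powerset.filter
        (fun I => if j = l then I.card = m j + 1 else I.card ≤ m j)) ?_ ?_ ?_
    · intro j I hI
      exact Finset.mem_powerset.mp (Finset.mem_filter.mp hI).1
    · intro j I
      split_ifs
      · simp
      · rw [abs_pow]; simp
    · intro f hf
      rw [Fintype.mem_piFinset] at hf
      apply hZ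
      intro j
      have h1 := Finset.mem_filter.mp (hf j)
      refine ⟨Finset.mem_powerset.mp h1.1, ?_⟩
      have h2 := h1.2
      split_ifs at h2 <;> omega
  have h1 : ∑ ω ∈ Ω, (W ω * ∏ j, tr (B j) (m j) (ind occ ω) -
      ∑ l, W ω * ∏ j, (if j = l then es (B l) (m l + 1) (ind occ ω) else
        tr (B j) (m j) (ind occ ω))) ≤
      ∑ ω ∈ Ω, W ω * ∏ j, ∏ i ∈ B j, (1 - ind occ ω i) := by
    apply Finset.sum_le_sum
    intro ω hω
    rw [← Finset.mul_sum, ← mul_sub]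
    apply mul_le_mul_of_nonneg_left _ (hW ω hω)
    refine le_trans ?_ (prod_lower (fun j => ∏ i ∈ B j, (1 - ind occ ω i))
      (fun j => tr (B j) (m j) (ind occ ω)) (hP0 ω) (hPT ω))
    apply sub_le_sub_left
    apply Finset.sum_le_sum
    intro l _
    apply Finset.prod_le_prod
    · intro j _
      split_ifs with hj
      · have := hPT ω l; linarith
      · exact (hP0 ω j).trans (hPT ω j)
    · intro j _
      split_ifs with hj
      · exact hTP ω l
      · exact le_rfl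
  rw [Finset.sum_sub_distrib, Finset.sum_comm] at h1
  have h2 := (abs_le.mp hmain).1
  have h3 : ∑ l : Fin t, ∑ ω ∈ Ω, W ω * ∏ j, (if j = l then es (B l) (m l + 1) (ind occ ω) else
        tr (B j) (m j) (ind occ ω)) ≤
      ∑ l : Fin t, (X * ∏ j, (if j = l then es (B l) (m l + 1) x else tr (B j) (m j) x) + R) := by
    apply Finset.sum_le_sum
    intro l _
    have := (abs_le.mp (herr l)).2
    linarith
  rw [Finset.sum_add_distrib, ← Finset.mul_sum, Finset.sum_const, Finset.card_univ,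
    Fintype.card_fin, nsmul_eq_mul] at h3
  have h4 : X * (∏ j, tr (B j) (m j) x -
      ∑ l, ∏ j, (if j = l then es (B l) (m l + 1) x else tr (B j) (m j) x)) - (t + 1) * R =
      (X * ∏ j, tr (B j) (m j) x - R) -
      (X * ∑ l, ∏ j, (if j = l then es (B l) (m l + 1) x else tr (B j) (m j) x) + t * R) := by
    ring
  rw [h4]
  linarith

/-- The weighted Brun-Hooley sieve with clean main term (lower bound). -/
theorem brun_hooleyW {t : ℕ} (Ω : Finset α) (W : α → ℝ) (hW : ∀ ω ∈ Ω, 0 ≤ W ω)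
    (occ : ℕ → α → Prop)
    (B : Fin t → Finset ℕ) (hB : ∀ i j, i ≠ j → Disjoint (B i) (B j))
    (hBp : ∀ j, ∀ q ∈ B j, q.Prime) (x : ℕ → ℝ)
    (hx : ∀ j, ∀ i ∈ B j, 0 ≤ x i ∧ x i ≤ 1 / 2) (X : ℝ) (hX : 0 ≤ X)
    (r : ℕ → ℝ) (hr : ∀ d, 0 ≤ r d) (Z : ℕ)
    (hcnt : ∀ I : Finset ℕ, I ⊆ Finset.univ.biUnion B → ∏ q ∈ I, q ≤ Z →
      |∑ ω ∈ Ω, W ω * ∏ i ∈ I, ind occ ω i - X * ∏ i ∈ I, x i| ≤ r (∏ q ∈ I, q))
    (m : Fin t → ℕ) (hm : ∀ j, Even (m j))
    (hZ : ∀ f : Fin t → Finset ℕ, (∀ j, f j ⊆ B j ∧ (f j).card ≤ m j + 1) →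
      ∏ q ∈ Finset.univ.biUnion f, q ≤ Z)
    (hes : ∑ j, es (B j) (m j + 1) x / ∏ i ∈ B j, (1 - x i) ≤ 1 / 2) :
    (1 / 2) * X * (∏ j, ∏ i ∈ B j, (1 - x i)) - (t + 1) * ∑ d ∈ Icc 1 Z, r d ≤
      ∑ ω ∈ Ω, W ω * ∏ j, ∏ i ∈ B j, (1 - ind occ ω i) := by
  have h2 := brun_hooley_rawW Ω W hW occ B hB hBp x X r hr Z hcnt m hm hZ
  have hx1 : ∀ j, ∀ i ∈ B j, 0 ≤ x i ∧ x i ≤ 1 := fun j i hi =>
    ⟨(hx j i hi).1, by linarith [(hx j i hi).2]⟩
  set V : Fin t → ℝ := fun j => ∏ i ∈ B j, (1 - x i) with hV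
  have hVpos : ∀ j, 0 < V j := fun j => Finset.prod_pos fun i hi => by
    linarith [(hx j i hi).2]
  set s : Fin t → ℝ := fun j => es (B j) (m j + 1) x / V j with hsdef
  have hs0 : ∀ j, 0 ≤ s j := fun j =>
    div_nonneg (es_nonneg _ _ _ fun i hi => (hx j i hi).1) (hVpos j).le
  have hVT : ∀ j, V j ≤ tr (B j) (m j) x := fun j => prod_le_tr_even _ _ (hx1 j) _ (hm j)
  have hs' : ∑ j, s j ≤ 1 / 2 := hes
  have hT0 : ∀ j, 0 < tr (B j) (m j) x := fun j => (hVpos j).trans_le (hVT j)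
  have hPT : 0 < ∏ j, tr (B j) (m j) x := Finset.prod_pos fun j _ => hT0 j
  refine le_trans ?_ h2
  have hsum : ∑ l, ∏ j, (if j = l then es (B l) (m l + 1) x else tr (B j) (m j) x) ≤
      (1 / 2) * ∏ j, tr (B j) (m j) x := by
    calc ∑ l, ∏ j, (if j = l then es (B l) (m l + 1) x else tr (B j) (m j) x)
        ≤ ∑ l, s l * ∏ j, tr (B j) (m j) x := by
          apply Finset.sum_le_sum
          intro l _
          rw [← Finset.mul_prod_erase Finset.univ _ (Finset.mem_univ l),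
            ← Finset.mul_prod_erase Finset.univ (fun j => tr (B j) (m j) x) (Finset.mem_univ l),
            if_pos rfl, ← mul_assoc]
          have h7 : ∏ j ∈ Finset.univ.erase l,
              (if j = l then es (B l) (m l + 1) x else tr (B j) (m j) x) =
              ∏ j ∈ Finset.univ.erase l, tr (B j) (m j) x := by
            apply Finset.prod_congr rfl
            intro j hj
            rw [if_neg (Finset.ne_of_mem_erase hj)]
          rw [h7]
          apply mul_le_mul_of_nonneg_right _ (Finset.prod_nonneg fun j _ => (hT0 j).le)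
          have h8 : es (B l) (m l + 1) x = s l * V l := by
            simp only [hsdef]
            rw [div_mul_cancel₀ _ (hVpos l).ne']
          rw [h8]
          exact mul_le_mul_of_nonneg_left (hVT l) (hs0 l)
      _ = (∑ l, s l) * ∏ j, tr (B j) (m j) x := by rw [Finset.sum_mul]
      _ ≤ (1 / 2) * ∏ j, tr (B j) (m j) x := mul_le_mul_of_nonneg_right hs' hPT.le
  have hlow : ∏ j, V j ≤ ∏ j, tr (B j) (m j) x :=
    Finset.prod_le_prod (fun j _ => (hVpos j).le) (fun j _ => hVT j)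
  have : X * ((1 / 2) * ∏ j, V j) ≤ X * (∏ j, tr (B j) (m j) x -
      ∑ l, ∏ j, (if j = l then es (B l) (m l + 1) x else tr (B j) (m j) x)) := by
    apply mul_le_mul_of_nonneg_left _ hX
    linarith
  linarith

/-- Number of blocks. -/
noncomputable def nbl (w : ℝ) : ℕ := ⌊Real.log w / Real.log 2⌋₊ + 1

theorem zs_nbl_lt {w : ℝ} (hw : 2 ≤ w) : zs w (nbl w) < 2 := by
  have hw0 : 0 < w := by linarith
  have hl2 : 0 < Real.log 2 := Real.log_pos (by norm_num)
  rw [← Real.log_lt_log_iff (zs_pos (by linarith) _) (by norm_num), log_zs hw0]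
  have h1 : ((nbl w : ℕ) : ℝ) < 2 ^ (nbl w) := by
    have := Nat.lt_two_pow_self (n := nbl w)
    exact_mod_cast this
  have h2 : Real.log w / Real.log 2 < nbl w := by
    unfold nbl
    push_cast
    exact Nat.lt_floor_add_one _
  have h5 : (0 : ℝ) < 2 ^ (nbl w) := by positivity
  rw [one_div, inv_pow, inv_mul_lt_iff₀ h5]
  rw [div_lt_iff₀ hl2] at h2
  calc Real.log w < (nbl w : ℝ) * Real.log 2 := h2
    _ ≤ 2 ^ (nbl w) * Real.log 2 := mul_le_mul_of_nonneg_right h1.le hl2.le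

theorem nbl_add_one_le {w : ℝ} (hw : 2 ≤ w) : (nbl w : ℝ) + 1 ≤ 5 * Real.log w := by
  have hl2 : 0 < Real.log 2 := Real.log_pos (by norm_num)
  have h2 : (0.6931471803 : ℝ) < Real.log 2 := Real.log_two_gt_d9
  have hlw : Real.log 2 ≤ Real.log w := Real.log_le_log (by norm_num) hw
  have h1 : (⌊Real.log w / Real.log 2⌋₊ : ℝ) ≤ Real.log w / Real.log 2 :=
    Nat.floor_le (div_nonneg (by linarith) hl2.le)
  have h3 : Real.log w / Real.log 2 ≤ 3 / 2 * Real.log w := by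
    rw [div_le_iff₀ hl2]
    nlinarith
  unfold nbl
  push_cast
  linarith

theorem biUnion_pbl {P : ℕ → Prop} (hP : ∀ q, P q → q.Prime) {w : ℝ} (hw : 2 ≤ w) :
    (Finset.univ : Finset (Fin (nbl w))).biUnion (fun j => pb P w j) = pU P w := by
  have hw1 : (1 : ℝ) ≤ w := by linarith
  have hw0 : (0 : ℝ) ≤ w := by linarith
  ext q
  rw [mem_pU hP hw0, Finset.mem_biUnion]
  constructor
  · rintro ⟨j, _, hj⟩
    rw [mem_pb] at hj
    refine ⟨hj.2, ?_⟩
    have h4 : (q : ℝ) ≤ zs w j := (Nat.le_floor_iff (zs_pos hw1 j).le).mp hj.1.2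
    have h5 : zs w j ≤ w := by
      have := zs_anti hw1 (Nat.zero_le (j : ℕ))
      rwa [zs_zero] at this
    linarith
  · rintro ⟨hPq, hle⟩
    have hex : ∃ j : ℕ, j < nbl w ∧ (q ≤ ⌊zs w j⌋₊ ∧ ¬ q ≤ ⌊zs w (j + 1)⌋₊) := by
      by_contra hcon
      push Not at hcon
      have hall : ∀ j : ℕ, j ≤ nbl w → q ≤ ⌊zs w j⌋₊ := by
        intro j
        induction j with
        | zero =>
          intro _
          rw [zs_zero, Nat.le_floor_iff (by linarith)]
          exact hle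
        | succ n ih =>
          intro hn
          exact hcon n (by omega) (ih (by omega))
      have h6 := hall (nbl w) le_rfl
      have h7 : (q : ℝ) ≤ zs w (nbl w) := (Nat.le_floor_iff (zs_pos hw1 _).le).mp h6
      have h8 := zs_nbl_lt hw
      have h9 : (2 : ℝ) ≤ q := by exact_mod_cast (hP q hPq).two_le
      linarith
    obtain ⟨j, hj, h1, h2⟩ := hex
    exact ⟨⟨j, hj⟩, Finset.mem_univ _, mem_pb.mpr ⟨⟨by simpa using h2, h1⟩, hPq⟩⟩

/-- The products occurring in the expansions are at most `w ^ (4 b + 6)`. -/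
theorem prod_biUnion_le {P : ℕ → Prop} {w : ℝ} (hw : 2 ≤ w) (b : ℕ)
    (f : Fin (nbl w) → Finset ℕ)
    (hf : ∀ j, f j ⊆ pb P w j ∧ (f j).card ≤ 2 * (b + (j : ℕ)) + 1) :
    ((∏ q ∈ Finset.univ.biUnion f, q : ℕ) : ℝ) ≤ w ^ (4 * b + 6 : ℝ) := by
  have hw1 : (1 : ℝ) ≤ w := by linarith
  have hw0 : (0 : ℝ) < w := by linarith
  have hdisj : ∀ i j : Fin (nbl w), i ≠ j → Disjoint (f i) (f j) := by
    intro i j hij
    exact Finset.disjoint_of_subset_left (hf i).1
      (Finset.disjoint_of_subset_right (hf j).1 (pb_disjoint hw1 (fun h => hij (Fin.ext h))))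
  rw [Finset.prod_biUnion (fun i _ j _ hij => hdisj i j hij)]
  push_cast
  calc ∏ j : Fin (nbl w), ∏ q ∈ f j, (q : ℝ)
      ≤ ∏ j : Fin (nbl w), w ^ ((1 / 2 : ℝ) ^ (j : ℕ) * (2 * (b + (j : ℕ)) + 1)) := by
        apply Finset.prod_le_prod
        · intro j _; positivity
        · intro j _
          have h1 : ∏ q ∈ f j, (q : ℝ) ≤ (zs w j) ^ (f j).card := by
            rw [← Finset.prod_const]
            apply Finset.prod_le_prod
            · intro q _; positivity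
            · intro q hq
              have := (hf j).1 hq
              rw [mem_pb] at this
              exact (Nat.le_floor_iff (zs_pos hw1 j).le).mp this.1.2
          refine h1.trans ((pow_le_pow_right₀ (one_le_zs hw1 j) (hf j).2).trans_eq ?_)
          unfold zs
          rw [← Real.rpow_natCast, ← Real.rpow_mul hw0.le]
          push_cast
          rfl
    _ = w ^ (∑ j : Fin (nbl w), (1 / 2 : ℝ) ^ (j : ℕ) * (2 * (b + (j : ℕ)) + 1)) := by
        rw [Real.rpow_sum_of_pos hw0]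
    _ ≤ w ^ (4 * b + 6 : ℝ) := by
        apply Real.rpow_le_rpow_of_exponent_le hw1
        rw [Fin.sum_univ_eq_sum_range
          (fun j => (1 / 2 : ℝ) ^ (j : ℕ) * (2 * (b + (j : ℝ)) + 1)) (nbl w)]
        have e : ∀ j ∈ range (nbl w), (1 / 2 : ℝ) ^ (j : ℕ) * (2 * (b + (j : ℝ)) + 1) =
            (2 * b + 1) * (1 / 2 : ℝ) ^ j + 2 * ((j : ℝ) * (1 / 2 : ℝ) ^ j) := by
          intro j _; ring
        rw [Finset.sum_congr rfl e, Finset.sum_add_distrib, ← Finset.mul_sum, ← Finset.mul_sum]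
        have h1 := sum_geo_le (nbl w)
        have h2 := sum_geo_mul_le (nbl w)
        have h3 : (0 : ℝ) ≤ 2 * b + 1 := by positivity
        have h5 := mul_le_mul_of_nonneg_left h1 h3
        linarith

/-- Lower bound for the sieve product. -/
theorem prod_lower_boundW : ∃ c : ℝ, 0 < c ∧ ∀ (P : ℕ → Prop),
    (∀ q, P q → q.Prime ∧ 3 ≤ q) → ∀ w : ℝ, 2 ≤ w →
      c / Real.log w ≤ ∏ q ∈ pU P w, (1 - 1 / ((q : ℝ) - 1)) := by
  classical
  obtain ⟨C, hC, hM⟩ := sum_primesUpTo_bounds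
  obtain ⟨C2, hC2, hS⟩ := sum_inv_sq_le
  refine ⟨Real.exp (-(C + 6 * C2)), Real.exp_pos _, ?_⟩
  intro P hP w hw
  have hP' : ∀ q, P q → q.Prime := fun q h => (hP q h).1
  have hw0 : 0 ≤ w := by linarith
  have hlw : 0 < Real.log w := Real.log_pos (by linarith)
  have hy : ∀ q ∈ pU P w, 0 ≤ 1 / ((q : ℝ) - 1) ∧ 1 / ((q : ℝ) - 1) ≤ 1 / 2 ∧
      1 / ((q : ℝ) - 1) ≤ 1 / q + 3 / 2 * (1 / (q : ℝ)) ^ 2 ∧
      (1 / ((q : ℝ) - 1)) ^ 2 ≤ 9 / 4 * (1 / (q : ℝ)) ^ 2 := by
    intro q hq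
    rw [mem_pU hP' hw0] at hq
    have h1 := hP q hq.1
    have h3 : (3 : ℝ) ≤ q := by exact_mod_cast h1.2
    have hq0 : (0 : ℝ) < q := by linarith
    have hq1 : (0 : ℝ) < (q : ℝ) - 1 := by linarith
    have h4 : 1 / ((q : ℝ) - 1) ≤ 3 / 2 * (1 / (q : ℝ)) := by
      rw [mul_one_div, div_div, div_le_div_iff₀ hq1 (by positivity)]
      linarith
    refine ⟨by positivity, ?_, ?_, ?_⟩
    · exact one_div_le_one_div_of_le (by norm_num) (by linarith)
    · have h5 : 1 / ((q : ℝ) - 1) = 1 / q + (1 / q) * (1 / ((q : ℝ) - 1)) := by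
        field_simp
        ring
      rw [h5]
      have h6 : (1 / (q : ℝ)) * (1 / ((q : ℝ) - 1)) ≤ (1 / (q : ℝ)) * (3 / 2 * (1 / (q : ℝ))) :=
        mul_le_mul_of_nonneg_left h4 (by positivity)
      nlinarith
    · have h7 : (0 : ℝ) ≤ 1 / ((q : ℝ) - 1) := by positivity
      have h8 := pow_le_pow_left₀ h7 h4 2
      rw [mul_pow] at h8
      norm_num at h8 ⊢
      linarith
  have h1 : ∏ q ∈ pU P w, Real.exp (-(1 / ((q : ℝ) - 1) + 2 * (1 / ((q : ℝ) - 1)) ^ 2)) ≤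
      ∏ q ∈ pU P w, (1 - 1 / ((q : ℝ) - 1)) := by
    apply Finset.prod_le_prod
    · intro q _; exact (Real.exp_pos _).le
    · intro q hq
      exact one_sub_ge_exp' (hy q hq).1 (hy q hq).2.1
  refine le_trans ?_ h1
  rw [← Real.exp_sum, Finset.sum_neg_distrib]
  have h2 : ∑ q ∈ pU P w, (1 / ((q : ℝ) - 1) + 2 * (1 / ((q : ℝ) - 1)) ^ 2) ≤
      Real.log (Real.log w) + C + 6 * C2 := by
    calc ∑ q ∈ pU P w, (1 / ((q : ℝ) - 1) + 2 * (1 / ((q : ℝ) - 1)) ^ 2)
        ≤ ∑ q ∈ pU P w, (1 / (q : ℝ) + 6 * (1 / (q : ℝ)) ^ 2) := by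
          apply Finset.sum_le_sum
          intro q hq
          have := hy q hq
          linarith [this.2.2.1, this.2.2.2]
      _ = ∑ q ∈ pU P w, 1 / (q : ℝ) + 6 * ∑ q ∈ pU P w, (1 / (q : ℝ)) ^ 2 := by
          rw [Finset.sum_add_distrib, ← Finset.mul_sum]
      _ ≤ (Real.log (Real.log w) + C) + 6 * C2 := by
          have h3 : ∑ q ∈ pU P w, 1 / (q : ℝ) ≤ ∑ q ∈ primesUpTo w, (1 / (q : ℝ)) := by
            apply Finset.sum_le_sum_of_subset_of_nonneg
            · unfold pU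
              exact Finset.filter_subset _ _
            · intro q _ _; positivity
          have h4 := (abs_le.mp (hM w hw)).2
          have h5 := hS (pU P w)
          linarith
      _ = _ := by ring
  have h4 : Real.exp (-(C + 6 * C2)) / Real.log w =
      Real.exp (-(Real.log (Real.log w) + C + 6 * C2)) := by
    conv_lhs => rw [← Real.exp_log hlw, ← Real.exp_sub]
    congr 1
    ring
  rw [h4]
  apply Real.exp_le_exp.mpr
  linarith

theorem sieveW : SieveW := by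
  obtain ⟨S0, hS0, hS⟩ := sum_inv_pb_le
  obtain ⟨c1, hc1, hlow⟩ := prod_lower_boundW
  set S1 : ℝ := 3 / 2 * S0 with hS1
  have hS1n : 0 ≤ S1 := by positivity
  have hsum : Summable (fun n : ℕ => S1 ^ n / (n.factorial : ℝ)) := Real.summable_pow_div_factorial S1
  obtain ⟨s0, hs0⟩ := summable_iff_vanishing_norm.mp hsum (Real.exp (-(2 * S1)) / 2) (by positivity)
  set b := s0.sup id + 1 with hb
  have hb0 : (0 : ℝ) ≤ b := by positivity
  refine ⟨4 * b + 6, c1 / 2, by linarith, by positivity, ?_⟩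
  intro α P hP w hw Ω W occ X R r hW hX hr hcnt hR E hE
  classical
  have hP' : ∀ q, P q → q.Prime := fun q h => (hP q h).1
  have hw1 : (1 : ℝ) ≤ w := by linarith
  have hw0 : (0 : ℝ) < w := by linarith
  have hlw : 0 < Real.log w := Real.log_pos (by linarith)
  have hdisj : ∀ i j : Fin (nbl w), i ≠ j → Disjoint (pb P w i) (pb P w j) := by
    intro i j hij
    exact pb_disjoint hw1 (fun h => hij (Fin.ext h))
  have hBp : ∀ j : Fin (nbl w), ∀ q ∈ pb P w j, q.Prime := by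
    intro j q hq
    rw [mem_pb] at hq
    exact hP' q hq.2
  have hx : ∀ j : ℕ, ∀ i ∈ pb P w j, 0 ≤ 1 / ((i : ℝ) - 1) ∧ 1 / ((i : ℝ) - 1) ≤ 1 / 2 ∧
      1 / ((i : ℝ) - 1) ≤ 3 / 2 * (1 / (i : ℝ)) := by
    intro j i hi
    rw [mem_pb] at hi
    have h1 := hP i hi.2
    have h3 : (3 : ℝ) ≤ i := by exact_mod_cast h1.2
    have hq0 : (0 : ℝ) < i := by linarith
    have hq1 : (0 : ℝ) < (i : ℝ) - 1 := by linarith
    refine ⟨by positivity, one_div_le_one_div_of_le (by norm_num) (by linarith), ?_⟩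
    rw [mul_one_div, div_div, div_le_div_iff₀ hq1 (by positivity)]
    linarith
  have hcnt' : ∀ I : Finset ℕ,
      I ⊆ Finset.univ.biUnion (fun j : Fin (nbl w) => pb P w j) →
      ∏ q ∈ I, q ≤ ⌊w ^ (4 * b + 6 : ℝ)⌋₊ →
      |∑ ω ∈ Ω, W ω * ∏ i ∈ I, ind occ ω i - X * ∏ i ∈ I, (1 / ((i : ℝ) - 1))| ≤
        r (∏ q ∈ I, q) := by
    intro I hI hIZ
    have h1 : ∑ ω ∈ Ω, W ω * ∏ i ∈ I, ind occ ω i =
        ∑ ω ∈ Ω.filter (fun ω => ∀ q ∈ I, occ q ω), W ω := by
      rw [Finset.sum_filter]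
      apply Finset.sum_congr rfl
      intro ω _
      rw [prod_ind, mul_ite, mul_one, mul_zero]
    rw [h1]
    apply hcnt I
    · intro q hq
      have := hI hq
      rwa [biUnion_pbl hP' hw, mem_pU hP' hw0.le] at this
    · exact (Nat.le_floor_iff (by positivity)).mp hIZ
    · intro ω
      rw [Finset.mem_filter]
  have hZ : ∀ f : Fin (nbl w) → Finset ℕ,
      (∀ j, f j ⊆ pb P w j ∧ (f j).card ≤ 2 * (b + (j : ℕ)) + 1) →
      ∏ q ∈ Finset.univ.biUnion f, q ≤ ⌊w ^ (4 * b + 6 : ℝ)⌋₊ := by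
    intro f hf
    exact Nat.le_floor (prod_biUnion_le hw b f hf)
  have hsumx : ∀ j : ℕ, ∑ i ∈ pb P w j, 1 / ((i : ℝ) - 1) ≤ S1 := by
    intro j
    calc ∑ i ∈ pb P w j, 1 / ((i : ℝ) - 1) ≤ ∑ i ∈ pb P w j, 3 / 2 * ((1 : ℝ) / i) :=
          Finset.sum_le_sum fun i hi => (hx j i hi).2.2
      _ = 3 / 2 * ∑ i ∈ pb P w j, (1 : ℝ) / i := by rw [Finset.mul_sum]
      _ ≤ 3 / 2 * S0 := mul_le_mul_of_nonneg_left (hS P hP' w hw j) (by norm_num)
  have hVlow : ∀ j : Fin (nbl w), Real.exp (-(2 * S1)) ≤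
      ∏ i ∈ pb P w j, (1 - 1 / ((i : ℝ) - 1)) := by
    intro j
    calc Real.exp (-(2 * S1)) ≤ Real.exp (-∑ i ∈ pb P w j, 2 * (1 / ((i : ℝ) - 1))) := by
          apply Real.exp_le_exp.mpr
          rw [← Finset.mul_sum]
          have := hsumx j
          linarith
      _ = ∏ i ∈ pb P w j, Real.exp (-(2 * (1 / ((i : ℝ) - 1)))) := by
          rw [← Finset.sum_neg_distrib, Real.exp_sum]
      _ ≤ _ := by
          apply Finset.prod_le_prod
          · intro i _; exact (Real.exp_pos _).le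
          · intro i hi
            have := hx j i hi
            exact one_sub_ge_exp this.1 this.2.1
  have hes : ∑ j : Fin (nbl w), es (pb P w j) (2 * (b + (j : ℕ)) + 1)
      (fun q : ℕ => 1 / ((q : ℝ) - 1)) / ∏ i ∈ pb P w j, (1 - 1 / ((i : ℝ) - 1)) ≤ 1 / 2 := by
    have hterm : ∀ j : Fin (nbl w), es (pb P w j) (2 * (b + (j : ℕ)) + 1)
        (fun q : ℕ => 1 / ((q : ℝ) - 1)) / ∏ i ∈ pb P w j, (1 - 1 / ((i : ℝ) - 1)) ≤
        (S1 ^ (2 * (b + (j : ℕ)) + 1) / ((2 * (b + (j : ℕ)) + 1).factorial : ℝ)) *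
          Real.exp (2 * S1) := by
      intro j
      have h1 : es (pb P w j) (2 * (b + (j : ℕ)) + 1) (fun q : ℕ => 1 / ((q : ℝ) - 1)) ≤
          S1 ^ (2 * (b + (j : ℕ)) + 1) / ((2 * (b + (j : ℕ)) + 1).factorial : ℝ) := by
        refine (es_le_pow_div_factorial _ _ (fun i hi => (hx j i hi).1) _).trans ?_
        apply div_le_div_of_nonneg_right _ (by positivity)
        apply pow_le_pow_left₀ (Finset.sum_nonneg fun i hi => (hx j i hi).1) (hsumx j)
      have h2 := hVlow j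
      have h3 : 0 < Real.exp (-(2 * S1)) := Real.exp_pos _
      rw [div_le_iff₀ (h3.trans_le h2)]
      calc es (pb P w j) (2 * (b + (j : ℕ)) + 1) (fun q : ℕ => 1 / ((q : ℝ) - 1))
          ≤ S1 ^ (2 * (b + (j : ℕ)) + 1) / ((2 * (b + (j : ℕ)) + 1).factorial : ℝ) * 1 := by
            rw [mul_one]; exact h1
        _ = S1 ^ (2 * (b + (j : ℕ)) + 1) / ((2 * (b + (j : ℕ)) + 1).factorial : ℝ) *
              (Real.exp (2 * S1) * Real.exp (-(2 * S1))) := by
            rw [← Real.exp_add]; simp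
        _ ≤ S1 ^ (2 * (b + (j : ℕ)) + 1) / ((2 * (b + (j : ℕ)) + 1).factorial : ℝ) *
              (Real.exp (2 * S1) * ∏ i ∈ pb P w j, (1 - 1 / ((i : ℝ) - 1))) := by
            gcongr
        _ = _ := by ring
    calc ∑ j : Fin (nbl w), es (pb P w j) (2 * (b + (j : ℕ)) + 1)
          (fun q : ℕ => 1 / ((q : ℝ) - 1)) / ∏ i ∈ pb P w j, (1 - 1 / ((i : ℝ) - 1))
        ≤ ∑ j : Fin (nbl w), (S1 ^ (2 * (b + (j : ℕ)) + 1) /
            ((2 * (b + (j : ℕ)) + 1).factorial : ℝ)) * Real.exp (2 * S1) :=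
          Finset.sum_le_sum fun j _ => hterm j
      _ = (∑ n ∈ (Finset.univ : Finset (Fin (nbl w))).image
              (fun j : Fin (nbl w) => 2 * (b + (j : ℕ)) + 1),
            S1 ^ n / (n.factorial : ℝ)) * Real.exp (2 * S1) := by
          rw [← Finset.sum_mul, Finset.sum_image]
          intro i _ j _ hij
          apply Fin.ext
          simp only at hij
          omega
      _ ≤ (Real.exp (-(2 * S1)) / 2) * Real.exp (2 * S1) := by
          apply mul_le_mul_of_nonneg_right _ (Real.exp_pos _).le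
          have h4 := hs0 ((Finset.univ : Finset (Fin (nbl w))).image
            (fun j : Fin (nbl w) => 2 * (b + (j : ℕ)) + 1)) ?_
          · rw [Real.norm_eq_abs] at h4
            exact (le_abs_self _).trans h4.le
          · rw [Finset.disjoint_left]
            intro n hn hn'
            rw [Finset.mem_image] at hn
            obtain ⟨j, _, rfl⟩ := hn
            have : id (2 * (b + (j : ℕ)) + 1) ≤ s0.sup id := Finset.le_sup (f := id) hn'
            simp only [id] at this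
            omega
      _ = 1 / 2 := by
          rw [div_mul_eq_mul_div, ← Real.exp_add]; simp
  have hmain := brun_hooleyW Ω W hW occ (fun j : Fin (nbl w) => pb P w j) hdisj hBp
    (fun q : ℕ => 1 / ((q : ℝ) - 1)) (fun j i hi => ⟨(hx j i hi).1, (hx j i hi).2.1⟩) X hX r hr
    ⌊w ^ (4 * b + 6 : ℝ)⌋₊ hcnt' (fun j => 2 * (b + (j : ℕ))) (fun j => even_two_mul _) hZ hes
  have hprodV : ∀ y : ℕ → ℝ, ∏ j : Fin (nbl w), ∏ i ∈ pb P w j, y i = ∏ q ∈ pU P w, y q := by
    intro y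
    rw [← Finset.prod_biUnion, biUnion_pbl hP' hw]
    intro i _ j _ hij
    exact hdisj i j hij
  have hev : ∑ ω ∈ Ω, W ω * ∏ j : Fin (nbl w), ∏ i ∈ pb P w j, (1 - ind occ ω i) =
      ∑ ω ∈ E, W ω := by
    have hEf : E = Ω.filter (fun ω => ∀ q ∈ pU P w, ¬ occ q ω) := by
      ext ω
      rw [hE, Finset.mem_filter]
      constructor
      · rintro ⟨h1, h2⟩
        refine ⟨h1, ?_⟩
        intro q hq
        rw [mem_pU hP' hw0.le] at hq
        exact h2 q hq.1 hq.2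
      · rintro ⟨h1, h2⟩
        refine ⟨h1, ?_⟩
        intro q hq hqw
        exact h2 q ((mem_pU hP' hw0.le).mpr ⟨hq, hqw⟩)
    rw [hEf, Finset.sum_filter]
    apply Finset.sum_congr rfl
    intro ω _
    rw [hprodV (fun i => 1 - ind occ ω i), prod_one_sub_ind, mul_ite, mul_one, mul_zero]
  rw [hev, hprodV (fun i => 1 - 1 / ((i : ℝ) - 1))] at hmain
  refine le_trans ?_ hmain
  have h1 : c1 / 2 * X / Real.log w ≤
      1 / 2 * X * ∏ q ∈ pU P w, (1 - 1 / ((q : ℝ) - 1)) := by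
    calc c1 / 2 * X / Real.log w = 1 / 2 * X * (c1 / Real.log w) := by ring
      _ ≤ _ := by
          apply mul_le_mul_of_nonneg_left _ (by positivity)
          exact hlow P hP w hw
  have h2 : ((nbl w : ℝ) + 1) * ∑ d ∈ Icc 1 ⌊w ^ (4 * b + 6 : ℝ)⌋₊, r d ≤
      (4 * b + 6) * Real.log w * R := by
    have h3 : 0 ≤ ∑ d ∈ Icc 1 ⌊w ^ (4 * b + 6 : ℝ)⌋₊, r d := Finset.sum_nonneg fun d _ => hr d
    apply mul_le_mul _ hR h3 (by positivity)
    have h4 := nbl_add_one_le hw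
    nlinarith
  linarith

end Pool.Agent.Helper28.BV
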